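import Mathlib
import Pool.Agent.H774R4.Fin
import Pool.Agent.Helper292.ForceCH

/-!
# MP_181197_gt: perfect normality of the square of `C_p(X)` is consistently not inherited

First half: there is a forcing notion all of whose conditions force, over any ground model, that
`ω₁` is preserved and that the continuum hypothesis holds.  Second half: the continuum hypothesis
implies that there is a Tychonoff space `X` with `C_p(X)` perfectly normal and hereditarily
Lindelof, whose square `C_p(X) × C_p(X)` is not perfectly normal and has an uncountable discrete
subspace.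
-/

set_option autoImplicit false

open Cardinal
open Pool.Agent.Helper292.ForceCH (OmegaOnePreserved CHHolds)

namespace Pool.Agent.Results.MP_181197_gt.ConsistentFailure

/-- `C_p(X)`: the continuous real functions on `X` with the topology of pointwise convergence
(the subspace topology from the product `X → ℝ`) -/
abbrev Cp (X : Type) [TopologicalSpace X] : Type := {f : X → ℝ // Continuous f}

/-- `Z` is perfectly normal: it is normal and each closed subset is a `G_δ`-set -/
def PerfNormal (Z : Type) [TopologicalSpace Z] : Prop :=
  NormalSpace Z ∧ ∀ s : Set Z, IsClosed s → IsGδ s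

/-- Some forcing notion preserves `ω₁` and forces the continuum hypothesis over any ground model;
and the continuum hypothesis gives a Tychonoff space `X` such that `C_p(X)` is perfectly normal and
hereditarily Lindelof, while `C_p(X) × C_p(X)` is not perfectly normal and has an uncountable
discrete subspace. -/
theorem result :
    (∃ (P : Type) (_ : Preorder P), Nonempty P ∧
      ∀ p : P, p ∈ OmegaOnePreserved P ∧ p ∈ CHHolds P) ∧
    ((ℵ₁ : Cardinal.{0}) = 𝔠 →
      ∃ (X : Type) (_ : TopologicalSpace X), T35Space X ∧
        PerfNormal (Cp X) ∧ HereditarilyLindelofSpace (Cp X) ∧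
        ¬ PerfNormal (Cp X × Cp X) ∧
        ∃ D : Set (Cp X × Cp X), ¬ D.Countable ∧ DiscreteTopology D) := by
  refine ⟨?_, fun hCH => ?_⟩
  · obtain ⟨P, hP, hne, h⟩ := Pool.Agent.Helper292.ForceCH.exists_forcing
    exact ⟨P, hP, hne, fun p => ⟨(h p).1, (h p).2.2⟩⟩
  · obtain ⟨X, t, h1, h2, h3, h4⟩ := Pool.Agent.H774R4.main hCH.symm
    exact ⟨X, t, h1, h2.2, h2.1, h3, h4⟩

end Pool.Agent.Results.MP_181197_gt.ConsistentFailure
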